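import Pool.Agent.V7H82.OD.Main

/-!
# Change of the index set
-/

set_option autoImplicit false
set_option linter.unusedSectionVars false

open Matrix
open Pool.Agent.R932.EV (SS SC)
open Pool.Agent.Y95.MT (qm)
open Pool.Agent.W544.PG (BD)

namespace Pool.Agent.V7H82.OD

noncomputable section

section
variable {F G I J : Type} [Field F] [Fintype I] [Fintype J] [DecidableEq I] [DecidableEq J]

/-- semisimplicity -/
def SSg (A : G → Matrix I I F) : Prop :=
  ∀ W : Submodule F (I → F), (∀ σ, ∀ w ∈ W, A σ *ᵥ w ∈ W) →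
    ∃ W' : Submodule F (I → F), IsCompl W W' ∧ ∀ σ, ∀ w ∈ W', A σ *ᵥ w ∈ W'

theorem ssg_of (e : I ≃ J) {A : G → Matrix I I F} (h : SSg A) :
    SSg (fun σ => (A σ).submatrix e.symm e.symm) := by
  intro W hW
  let L : (I → F) ≃ₗ[F] (J → F) := LinearEquiv.funCongrLeft F F e.symm
  have hL : ∀ (σ : G) (w : I → F), L (A σ *ᵥ w) = (A σ).submatrix e.symm e.symm *ᵥ L w := by
    intro σ w
    rw [Matrix.submatrix_mulVec_equiv]
    have h1 : L w ∘ e.symm.symm = w := by
      funext x
      show w (e.symm (e x)) = w x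
      rw [Equiv.symm_apply_apply]
    rw [h1]
    rfl
  obtain ⟨W', h1, h2⟩ := h (W.comap L.toLinearMap) (fun σ w hw => by
    rw [Submodule.mem_comap] at hw ⊢
    have h3 := hW σ _ hw
    rw [LinearEquiv.coe_coe, hL]
    exact h3)
  refine ⟨W'.map L.toLinearMap, ?_, ?_⟩
  · have h3 := (Submodule.orderIsoMapComap L).isCompl h1
    have h4 : (Submodule.orderIsoMapComap L) (W.comap L.toLinearMap) = W := by
      show (W.comap L.toLinearMap).map L.toLinearMap = W
      exact Submodule.map_comap_eq_of_surjective L.surjective W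
    rw [h4] at h3
    exact h3
  · rintro σ _ ⟨w, hw, rfl⟩
    exact ⟨A σ *ᵥ w, h2 σ w hw, hL σ w⟩

/-- scalar commutants -/
def SCg [Group G] [TopologicalSpace G] (A : G → Matrix I I F) : Prop :=
  ∀ (B : Matrix I I F) (U : Subgroup G), IsOpen (U : Set G) →
    (∀ σ ∈ U, B * A σ = A σ * B) → ∃ c : F, B = c • (1 : Matrix I I F)

theorem scg_of [Group G] [TopologicalSpace G] (e : I ≃ J) {A : G → Matrix I I F} (h : SCg A) :
    SCg (fun σ => (A σ).submatrix e.symm e.symm) := by
  intro B U hU hB
  obtain ⟨z, hz⟩ := h (B.submatrix e e) U hU (fun σ hσ => by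
    have h1 := congrArg (fun M : Matrix J J F => M.submatrix e e) (hB σ hσ)
    have h2 : ((A σ).submatrix e.symm e.symm).submatrix e e = A σ := by
      rw [Matrix.submatrix_submatrix, Equiv.symm_comp_self, Matrix.submatrix_id_id]
    beta_reduce at h1
    rw [← Matrix.submatrix_mul_equiv B _ e e e, ← Matrix.submatrix_mul_equiv _ B e e e, h2] at h1
    exact h1)
  refine ⟨z, ?_⟩
  have h1 := congrArg (fun M : Matrix I I F => M.submatrix e.symm e.symm) hz
  beta_reduce at h1
  rw [Matrix.submatrix_submatrix, Equiv.self_comp_symm, Matrix.submatrix_id_id] at h1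
  rw [h1]
  ext a b
  rw [Matrix.submatrix_apply, Matrix.smul_apply, Matrix.smul_apply, Matrix.one_apply,
    Matrix.one_apply]
  simp only [EmbeddingLike.apply_eq_iff_eq]

end

section
variable {ℓ : ℕ} [Fact ℓ.Prime] {n r : ℕ} {c : Fin n → Fin r} {Γ : Type} [Group Γ]
  {β : Γ →* Matrix (Fin n) (Fin n) ℤ_[ℓ]}

/-- the block of colour `i` -/
def sq {R : Type} (c : Fin n → Fin r) (i : Fin r) (A : Matrix (Fin n) (Fin n) R) :
    Matrix {a // c a = i} {a // c a = i} R :=
  A.submatrix Subtype.val Subtype.val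

theorem blk_sq {R : Type} (i : Fin r) (A : Matrix (Fin n) (Fin n) R) :
    blk c i A = (sq c i A).submatrix (eb c i).symm (eb c i).symm := rfl

theorem sq_blk {R : Type} (i : Fin r) (A : Matrix (Fin n) (Fin n) R) :
    sq c i A = (blk c i A).submatrix (eb c i).symm.symm (eb c i).symm.symm := by
  rw [blk_sq, Matrix.submatrix_submatrix]
  have h1 : (eb c i).symm ∘ (eb c i).symm.symm = id := by
    funext x
    simp
  rw [h1, Matrix.submatrix_id_id]

theorem ss_iff (hβ : ∀ σ, BD c (β σ)) (i : Fin r) :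
    SS (rb c β hβ i) ↔ SSg fun σ => sq c i (qm (β σ)) := by
  constructor
  · intro h
    have h1 : SSg fun σ => blk c i (qm (β σ)) := h
    have h2 := ssg_of (eb c i).symm h1
    have h3 : (fun σ => sq c i (qm (β σ))) = fun σ =>
        (blk c i (qm (β σ))).submatrix (eb c i).symm.symm (eb c i).symm.symm :=
      funext fun σ => sq_blk i _
    rw [h3]
    exact h2
  · intro h
    exact ssg_of (eb c i) h

theorem sc_iff [TopologicalSpace Γ] (hβ : ∀ σ, BD c (β σ)) (i : Fin r) :
    SC (rb c β hβ i) ↔ SCg fun σ => sq c i (qm (β σ)) := by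
  constructor
  · intro h
    have h1 : SCg fun σ => blk c i (qm (β σ)) := h
    have h2 := scg_of (eb c i).symm h1
    have h3 : (fun σ => sq c i (qm (β σ))) = fun σ =>
        (blk c i (qm (β σ))).submatrix (eb c i).symm.symm (eb c i).symm.symm :=
      funext fun σ => sq_blk i _
    rw [h3]
    exact h2
  · intro h
    exact scg_of (eb c i) h

theorem det_blk {R : Type} [CommRing R] (i : Fin r) (A : Matrix (Fin n) (Fin n) R) :
    (blk c i A).det = (sq c i A).det := by
  rw [blk_sq, Matrix.det_submatrix_equiv_self]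

theorem charpoly_blk {R : Type} [CommRing R] (i : Fin r) (A : Matrix (Fin n) (Fin n) R) :
    (blk c i A).charpoly = (sq c i A).charpoly := by
  rw [blk_sq]
  exact Matrix.charpoly_reindex (eb c i) (sq c i A)

end

end

end Pool.Agent.V7H82.OD
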