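import Pool.Agent.V7H82.OD.Gen
import Pool.Agent.V7H82.OD.Reix

/-!
# Explicit conditions at one prime, for several summands
-/

set_option autoImplicit false
set_option linter.unusedSectionVars false
set_option linter.style.haveILetI false

open Matrix Polynomial Filter Topology NumberField IsDedekindDomain
open Pool.Agent.Y142.ZO Pool.Agent.Y142.ZI
open Pool.Agent.Y142.ZS (SpLie)
open Pool.Agent.Y95.MT
open Pool.Agent.W544.PG (HS BD bl)
open Pool.Agent.R932.PO (JTan IsForm Kind Fits Allows Sys several tasks joint_full pair_of_root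
  skew_sp IndRoot)
open Pool.Agent.V7H82.PR (QB IsHom)

namespace Pool.Agent.V7H82.OD

noncomputable section

variable {K : Type} [Field K] [NumberField K] {n r : ℕ} {c : Fin n → Fin r}
  {S : Set (HeightOneSpectrum (𝓞 K))}
  {Γ : Type} [Group Γ] [TopologicalSpace Γ] [IsTopologicalGroup Γ] [CompactSpace Γ]
  {s : GK K →* Γ} {T : HS n} {ℓ : ℕ} [Fact ℓ.Prime]

/-- explicit conditions at the prime `ℓ` -/
def GoodAt (S : Set (HeightOneSpectrum (𝓞 K))) (P : HeightOneSpectrum (𝓞 K) → ℚ[X]) (ℓ : ℕ)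
    [Fact ℓ.Prime] : Prop :=
  ∃ v ∉ S, (ℓ : 𝓞 K) ∉ v.asIdeal ∧ ∃ (b : ℕ) (Q : ℚ[X]), IsHom Q b ∧
    Irreducible (Q.map (algebraMap ℚ ℚ_[ℓ])) ∧ ∃ u ∉ S, (ℓ : 𝓞 K) ∉ u.asIdeal ∧
      ((P v = Q ∧ (P u).Separable ∧
        (∀ (k : ℕ) (x y : QB), 0 < k → aeval x (P u) = 0 → aeval y (P u) = 0 →
          x ^ k = y ^ k → x = y) ∧ ∃ a : ℚ_[ℓ], aeval a (P u) = 0) ∨
      (P v = (X - 1) * Q ∧ ∃ R : ℚ[X], P u = (X - 1) * R ∧
        (∀ (k : ℕ) (x : QB), 0 < k → aeval x R = 0 → x ^ k ≠ 1) ∧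
        ¬ IsSquare ((Q.eval 1 * Q.eval (-1) * (R.eval 1 * R.eval (-1)) : ℚ) : ℚ_[ℓ])))

theorem full_of_goodAt {P : HeightOneSpectrum (𝓞 K) → ℚ[X]} {J : Matrix (Fin n) (Fin n) ℚ_[ℓ]}
    {ρ : Γ →* Matrix (Fin n) (Fin n) ℚ_[ℓ]} (h : RepO s J S P ρ) (hs : Continuous s) (hn : 0 < n)
    (hg : GoodAt S P ℓ) : FullLie ℓ ρ J := by
  obtain ⟨v, hv, hvℓ, b, Q, hQ, hirr, u, hu, huℓ, h1 | h1⟩ := hg
  · obtain ⟨h1, h2, h3, a, ha⟩ := h1
    subst h1
    exact full_even_expl h hv hvℓ hQ hn hirr hu huℓ h2 h3 ha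
  · obtain ⟨h1, R, h2, h3, h4⟩ := h1
    refine full_odd_expl h hs hv hvℓ h1 hQ ?_ hirr hu huℓ h2 h3 h4
    have h3 := natDegree_place h hv hvℓ
    have h4 : (X - 1 : ℚ[X]).Monic := by
      have h5 := monic_X_sub_C (1 : ℚ)
      rwa [map_one] at h5
    rw [h1, h4.natDegree_mul' hQ.sep.ne_zero, hQ.deg] at h3
    have h6 : (X - 1 : ℚ[X]).natDegree = 1 := by
      have h5 := natDegree_X_sub_C (1 : ℚ)
      rwa [map_one] at h5
    rw [h6] at h3
    exact ⟨b, by omega⟩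

/-- **The joint Lie algebra from explicit conditions.** -/
theorem joint_explicit {P : Fin r → HeightOneSpectrum (𝓞 K) → ℚ[X]}
    {β : Γ →* Matrix (Fin n) (Fin n) ℤ_[ℓ]} (hbQ : BD c T.Q)
    (hrk : ∀ i, (Odd (nb c i) ∧ 5 ≤ nb c i) ∨ (Even (nb c i) ∧ 8 ≤ nb c i))
    (hs : Continuous s) (h : RepC s T c S P ℓ β) (hg : ∀ i, GoodAt S (P i) ℓ)
    (hind : 1 < r → ∀ i, ∃ w ∉ S, (ℓ : 𝓞 K) ∉ w.asIdeal ∧
      IndRoot (P i w) (∏ j ∈ Finset.univ.erase i, P j w)) :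
    ∀ X, (∀ i, SpLie (jb ℓ c T i) (X i)) → JTan ℓ (fun i => (rb c β h.bd i).comp s) X := by
  have hpos : ∀ i, 0 < nb c i := fun i => by
    rcases hrk i with h | h <;> omega
  have hrep : ∀ i, RepO (MonoidHom.id (GK K)) (jb ℓ c T i) S (P i)
      ((rb c β h.bd i).comp s) := fun i =>
    ⟨(cont_rb h.cont h.bd i).comp hs, jb_symm i, jb_det hbQ i, fun g => form_rb hbQ h i (s g),
      fun v hv hvℓ σ hσ => h.frob i v hv hvℓ σ hσ⟩
  have hsim : ∀ (i : Fin r) (g : GK K), ∃ z : ℚ_[ℓ],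
      Pool.Agent.Y142.ZS.Sim (jb ℓ c T i) ((rb c β h.bd i).comp s g) z := fun i g =>
    ⟨1, by
      unfold Pool.Agent.Y142.ZS.Sim
      rw [one_smul]
      exact form_rb hbQ h i (s g)⟩
  have hone : ∀ i X, SpLie (jb ℓ c T i) X → IsTangent ℓ ((rb c β h.bd i).comp s) X := by
    intro i X hX
    exact full_of_goodAt (hrep i) continuous_id (hpos i) (hg i) X
      ((skew_sp (jb_symm i)).2 hX)
  have hform : ∀ i, IsForm (jb ℓ c T i) := fun i => (fits_jb hrk i).isForm (jb_det hbQ i)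
  have hcont : ∀ i, Continuous ((rb c β h.bd i).comp s) := fun i =>
    (cont_rb h.cont h.bd i).comp hs
  refine joint_full tasks.jlie tasks.jlift tasks.gour tasks.pair
    (ρ := fun i => (rb c β h.bd i).comp s) hcont hform hsim hone ?_
  intro i j hij
  have hr : 1 < r := by
    have h1 := i.2
    have h2 := j.2
    have h3 : (i : ℕ) ≠ (j : ℕ) := fun h => hij (Fin.ext h)
    omega
  refine pair_of_root tasks.eqv (ρ := fun i => (rb c β h.bd i).comp s) hcont hform hsim hone ?_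
    i j hij
  intro i
  obtain ⟨w, hw, hwℓ, hi⟩ := hind hr i
  obtain ⟨σ, hσ⟩ := Pool.Agent.W401.Frob.exists_frob w
  refine ⟨σ⁻¹, fun j => P j w, 1, fun j => h.frob j w hw hwℓ σ hσ, ?_, hi⟩
  unfold Pool.Agent.Y142.ZS.Sim
  rw [Rat.cast_one, one_smul]
  exact form_rb hbQ h i _

end

end Pool.Agent.V7H82.OD
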