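import Pool.Agent.V7H82.OD.Conv

/-!
# One prime decides
-/

set_option autoImplicit false
set_option linter.unusedSectionVars false
set_option linter.style.haveILetI false

open Matrix Filter Topology NumberField IsDedekindDomain
open Pool.Agent.Y142.ZO Pool.Agent.Y142.ZI
open Pool.Agent.Y142.ZS (SpLie)
open Pool.Agent.Y95.MT
open Pool.Agent.W544.PG (HS BD bl)
open Pool.Agent.R932 (continuous_qm skew_iff tanIn_of_finite soIn_of_tan TanIn SoIn)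
open Pool.Agent.R932.GR (ZarF Pf evf joint_of_zar)
open Pool.Agent.R932.PO (JTan IsForm Kind Fits Allows Sys several tasks)
open Pool.Agent.R932.EV (SS SC)

namespace Pool.Agent.V7H82.OD

noncomputable section

variable {K : Type} [Field K] [NumberField K] {n r : ℕ} {c : Fin n → Fin r}
  {S : Set (HeightOneSpectrum (𝓞 K))} {P : Fin r → HeightOneSpectrum (𝓞 K) → Polynomial ℚ}
  {Γ : Type} [Group Γ] [TopologicalSpace Γ] [IsTopologicalGroup Γ] [CompactSpace Γ]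
  {s : GK K →* Γ} {T : HS n} {p q : Fin r → ℕ}

/-- the representation on `T = T_1 + ... + T_r` -/
structure RepC (s : GK K →* Γ) (T : HS n) (c : Fin n → Fin r)
    (S : Set (HeightOneSpectrum (𝓞 K))) (P : Fin r → HeightOneSpectrum (𝓞 K) → Polynomial ℚ)
    (ℓ : ℕ) [Fact ℓ.Prime] (β : Γ →* Matrix (Fin n) (Fin n) ℤ_[ℓ]) : Prop where
  cont : Continuous β
  bd : ∀ σ, BD c (β σ)
  form : ∀ σ, (qm (β σ))ᵀ * T.Q.map (algebraMap ℚ ℚ_[ℓ]) * qm (β σ) = T.Q.map (algebraMap ℚ ℚ_[ℓ])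
  frob : ∀ i, ∀ v ∉ S, (ℓ : 𝓞 K) ∉ v.asIdeal → ∀ σ : GK K, IsFrobenius v σ →
    (blk c i (qm (β (s σ⁻¹)))).charpoly = (P i v).map (algebraMap ℚ ℚ_[ℓ])

open scoped Classical in
/-- the kind of a summand -/
def kd (c : Fin n → Fin r) (i : Fin r) : Kind := if Odd (nb c i) then .odd else .even

section one
variable {ℓ : ℕ} [Fact ℓ.Prime] {β : Γ →* Matrix (Fin n) (Fin n) ℤ_[ℓ]}

theorem cont_rb (hβ : Continuous β) (hbd : ∀ σ, BD c (β σ)) (i : Fin r) :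
    Continuous (rb c β hbd i) :=
  (continuous_qm.comp hβ).matrix_submatrix _ _

theorem form_rb (hbQ : BD c T.Q) (h : RepC s T c S P ℓ β) (i : Fin r) (σ : Γ) :
    (rb c β h.bd i σ)ᵀ * jb ℓ c T i * rb c β h.bd i σ = jb ℓ c T i := by
  have h1 := congrArg (blk c i) (h.form σ)
  have h2 : BD c ((qm (β σ))ᵀ * T.Q.map (algebraMap ℚ ℚ_[ℓ])) :=
    BD_mul c (BD_transpose c (BD_qm (h.bd σ))) (BD_Q hbQ)
  rw [blk_mul c h2, blk_mul c (BD_transpose c (BD_qm (h.bd σ))), blk_transpose] at h1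
  exact h1

theorem fits_jb (hrk : ∀ i, (Odd (nb c i) ∧ 5 ≤ nb c i) ∨ (Even (nb c i) ∧ 8 ≤ nb c i)) (i : Fin r) :
    Fits (kd c i) (jb ℓ c T i) := by
  unfold kd
  rcases hrk i with h | h
  · rw [if_pos h.1]
    exact ⟨jb_symm i, h.1, h.2⟩
  · rw [if_neg (Nat.not_odd_iff_even.2 h.1)]
    exact ⟨jb_symm i, h.1, h.2⟩

theorem sys_rb (hbQ : BD c T.Q)
    (hrk : ∀ i, (Odd (nb c i) ∧ 5 ≤ nb c i) ∨ (Even (nb c i) ∧ 8 ≤ nb c i))
    (h : RepC s T c S P ℓ β) (i : Fin r) :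
    Sys s (kd c i) (nb c i) ℓ (rb c β h.bd i) (jb ℓ c T i) S (P i) (fun _ => 1) := by
  refine ⟨cont_rb h.cont h.bd i, fits_jb hrk i, jb_det hbQ i, fun γ => ⟨1, ?_, fun _ => rfl⟩, ?_⟩
  · rw [one_smul]
    exact form_rb hbQ h i γ
  · intro v hv hvℓ σ hσ
    refine ⟨h.frob i v hv hvℓ σ hσ, ?_⟩
    rw [Rat.cast_one, one_smul]
    exact form_rb hbQ h i _

/-- From joint tangent vectors to the Mumford-Tate conjecture. -/
theorem mtc_of_joint {κ : Type} [Fintype κ] [DecidableEq κ] {α : Γ →* Matrix κ κ ℚ_[ℓ]}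
    (hB : T.Big c p q) (hα : Continuous α) (hαf : (Set.range α).Finite)
    (h : RepC s T c S P ℓ β)
    (hj : ∀ X, (∀ i, SpLie (jb ℓ c T i) (X i)) → JTan ℓ (fun i => rb c β h.bd i) X) :
    MTC (hM (fun _ => (1 : Matrix κ κ ℂ)) T) (tot α β) := by
  have hg : GalT c T.Q β := ⟨h.form, h.bd⟩
  have hcont : Continuous (tot α β) := by
    show Continuous fun s => (fromBlocks (α s) 0 0 (qm (β s)) :
      Matrix (κ ⊕ Fin n) (κ ⊕ Fin n) ℚ_[ℓ])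
    exact hα.matrix_fromBlocks continuous_const continuous_const (continuous_qm.comp h.cont)
  have htan : TanIn c T α β := by
    refine tanIn_of_finite (continuous_qm.comp h.cont) hα hαf fun X hX hXb => ?_
    have h1 : ∀ i, SpLie (jb ℓ c T i) (blk c i X) := by
      intro i
      have h2 := congrArg (blk c i) hX
      have h3 : ∀ A B : Matrix (Fin n) (Fin n) ℚ_[ℓ], blk c i (A + B) = blk c i A + blk c i B :=
        fun _ _ => rfl
      rw [h3, blk_mul c (BD_transpose c hXb), blk_mul c (BD_Q hB.bQ), blk_transpose] at h2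
      exact h2
    obtain ⟨σ, hσ⟩ := hj _ h1
    refine ⟨σ, ?_⟩
    refine tendsto_pi_nhds.2 fun x => tendsto_pi_nhds.2 fun y => ?_
    by_cases hxy : c x = c y
    · have h4 := tendsto_pi_nhds.1 (tendsto_pi_nhds.1 (hσ (c y)) (eb c (c y) ⟨x, hxy⟩))
        (eb c (c y) ⟨y, rfl⟩)
      beta_reduce at h4
      rw [blk_apply, em_eb, em_eb] at h4
      refine h4.congr fun k => ?_
      rw [Matrix.smul_apply, Matrix.smul_apply, Matrix.sub_apply, Matrix.sub_apply, rb_apply,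
        ← blk_one c, blk_apply, blk_apply, em_eb, em_eb]
    · rw [hXb x y hxy]
      refine tendsto_const_nhds.congr fun k => ?_
      have hne : x ≠ y := fun h => hxy (by rw [h])
      rw [Matrix.smul_apply, Matrix.sub_apply, BD_qm (h.bd _) x y hxy, Matrix.one_apply_ne hne,
        sub_zero, smul_zero]
  have hso : SoIn c T α β := soIn_of_tan hB.bQ hcont htan
  exact (Pool.Agent.R932.main' hB (fun _ _ => by rw [Matrix.det_one]; exact one_ne_zero) star_N hg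
    hso).2 (MTC_N hαf)

end one

/-- From the full joint Lie algebra at one prime. -/
theorem one_of_full {κ : Type} [Fintype κ] [DecidableEq κ] (hB : T.Big c p q)
    (hrk : ∀ i, (Odd (nb c i) ∧ 5 ≤ nb c i) ∨ (Even (nb c i) ∧ 8 ≤ nb c i))
    (hs : Continuous s) (hS : S.Finite)
    (α : ∀ (ℓ : ℕ) [Fact ℓ.Prime], Γ →* Matrix κ κ ℚ_[ℓ])
    (β : ∀ (ℓ : ℕ) [Fact ℓ.Prime], Γ →* Matrix (Fin n) (Fin n) ℤ_[ℓ])
    (hα : ∀ (ℓ : ℕ) [Fact ℓ.Prime], Continuous (α ℓ) ∧ (Set.range (α ℓ)).Finite)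
    (h : ∀ (ℓ : ℕ) [Fact ℓ.Prime], RepC s T c S P ℓ (β ℓ))
    (ℓ₀ : ℕ) [Fact ℓ₀.Prime] (hal : ∀ i, Allows (kd c i) (nb c i) ℓ₀ (jb ℓ₀ c T i))
    (hfull : ∀ X, (∀ i, SpLie (jb ℓ₀ c T i) (X i)) →
      JTan ℓ₀ (fun i => (rb c (β ℓ₀) (h ℓ₀).bd i).comp s) X) :
    Y142.ZI.DensityZero {ℓ | ∃ _ : Fact ℓ.Prime,
      ¬ MTC (hM (fun _ => (1 : Matrix κ κ ℂ)) T) (tot (α ℓ) (β ℓ))} ∧
    ∀ (ℓ : ℕ) [Fact ℓ.Prime], MTC (hM (fun _ => (1 : Matrix κ κ ℂ)) T) (tot (α ℓ) (β ℓ)) ↔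
      ∀ i, SS (rb c (β ℓ) (h ℓ).bd i) ∧ SC (rb c (β ℓ) (h ℓ).bd i) := by
  have hsys := fun (i : Fin r) (ℓ : ℕ) [Fact ℓ.Prime] => sys_rb (s := s) hB.bQ hrk (h ℓ) i
  have hsev := several (K := K) tasks hs hS (fun i ℓ _ => rb c (β ℓ) (h ℓ).bd i)
    (fun i ℓ _ => jb ℓ c T i) hsys ℓ₀ hal hfull
  constructor
  · refine Y142.ZI.DensityZero.mono hsev.1 ?_
    rintro ℓ ⟨hp, hno⟩
    refine ⟨hp, fun hall' => hno (mtc_of_joint hB (hα ℓ).1 (hα ℓ).2 (h ℓ) fun X hX => ?_)⟩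
    obtain ⟨σ, hσ⟩ := hall' X hX
    exact ⟨fun k => s (σ k), hσ⟩
  · intro ℓ _
    refine ⟨fun h1 i => ⟨ss_of_mtc hB (h ℓ).bd h1 i, sc_of_mtc hB (h ℓ).bd h1 i⟩, fun h1 => ?_⟩
    exact mtc_of_joint hB (hα ℓ).1 (hα ℓ).2 (h ℓ)
      (hsev.2 ℓ (fun i => (h1 i).1) (fun i => (h1 i).2))

/-- From the Mumford-Tate conjecture at one prime to the full joint Lie algebra. -/
theorem full_of_mtc {κ : Type} [Fintype κ] [DecidableEq κ] (hB : T.Big c p q)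
    (hrk : ∀ i, (Odd (nb c i) ∧ 5 ≤ nb c i) ∨ (Even (nb c i) ∧ 8 ≤ nb c i))
    (hs : Continuous s) {ℓ₀ : ℕ} [Fact ℓ₀.Prime] {α : Γ →* Matrix κ κ ℚ_[ℓ₀]}
    {β : Γ →* Matrix (Fin n) (Fin n) ℤ_[ℓ₀]} (h : RepC s T c S P ℓ₀ β)
    (h0 : MTC (hM (fun _ => (1 : Matrix κ κ ℂ)) T) ((tot α β).comp s)) :
    ∀ X, (∀ i, SpLie (jb ℓ₀ c T i) (X i)) → JTan ℓ₀ (fun i => (rb c β h.bd i).comp s) X := by
  have hpos : ∀ i, 0 < nb c i := fun i => by
    rcases hrk i with h | h <;> omega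
  intro X hX
  have h1 : MTC (hM (fun _ => (1 : Matrix κ κ ℂ)) T) (tot (α.comp s) (β.comp s)) := h0
  have hbd : ∀ σ, BD c ((β.comp s) σ) := fun σ => h.bd (s σ)
  have h2 := zarF hB hbd h1
  refine joint_of_zar (G := GK K) (ρ := fun i => (rb c β h.bd i).comp s)
    (J := fun i => jb ℓ₀ c T i) (fun i => (cont_rb h.cont h.bd i).comp hs)
    (fun i => (fits_jb hrk i).isForm (jb_det hB.bQ i)) hpos (fun i g => ⟨1, ?_⟩) h2 X hX
  unfold Pool.Agent.Y142.ZS.Sim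
  rw [one_smul]
  exact form_rb hB.bQ h i (s g)

end

end Pool.Agent.V7H82.OD
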