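import Mathlib
import Pool.Agent.W544.PG.Defs4

/-!
# Blocks of block diagonal matrices
-/

set_option autoImplicit false
set_option linter.unusedSectionVars false

open Matrix
open Pool.Agent.W544.PG (BD bl)

namespace Pool.Agent.V7H82.OD

noncomputable section

variable {n r : ℕ} (c : Fin n → Fin r)

/-- the number of the indices of the colour `i` -/
def nb (i : Fin r) : ℕ := Fintype.card {a : Fin n // c a = i}

/-- an enumeration -/
def eb (i : Fin r) : {a : Fin n // c a = i} ≃ Fin (nb c i) := Fintype.equivFin _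

/-- the embedding -/
def em (i : Fin r) (a : Fin (nb c i)) : Fin n := ((eb c i).symm a).1

theorem c_em (i : Fin r) (a : Fin (nb c i)) : c (em c i a) = i := ((eb c i).symm a).2

theorem em_inj {i : Fin r} {a b : Fin (nb c i)} (h : em c i a = em c i b) : a = b :=
  (eb c i).symm.injective (Subtype.ext h)

theorem em_eb {i : Fin r} {x : Fin n} (hx : c x = i) : em c i (eb c i ⟨x, hx⟩) = x := by
  unfold em
  rw [Equiv.symm_apply_apply]

theorem eb_em (i : Fin r) (a : Fin (nb c i)) : eb c i ⟨em c i a, c_em c i a⟩ = a := by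
  apply em_inj c
  rw [em_eb]

/-- the block -/
def blk {R : Type} (i : Fin r) (A : Matrix (Fin n) (Fin n) R) :
    Matrix (Fin (nb c i)) (Fin (nb c i)) R := A.submatrix (em c i) (em c i)

theorem blk_apply {R : Type} (i : Fin r) (A : Matrix (Fin n) (Fin n) R) (a b : Fin (nb c i)) :
    blk c i A a b = A (em c i a) (em c i b) := rfl

theorem blk_map {R R' : Type} (f : R → R') (i : Fin r) (A : Matrix (Fin n) (Fin n) R) :
    blk c i (A.map f) = (blk c i A).map f := rfl

theorem blk_transpose {R : Type} (i : Fin r) (A : Matrix (Fin n) (Fin n) R) :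
    blk c i Aᵀ = (blk c i A)ᵀ := rfl

theorem blk_one {R : Type} [CommRing R] (i : Fin r) :
    blk c i (1 : Matrix (Fin n) (Fin n) R) = 1 := by
  ext a b
  rw [blk_apply, Matrix.one_apply, Matrix.one_apply]
  by_cases h : a = b
  · rw [h, if_pos rfl, if_pos rfl]
  · rw [if_neg h, if_neg fun h' => h (em_inj c h')]

/-- sums over a colour -/
theorem sum_em {M : Type} [AddCommMonoid M] (i : Fin r) (f : Fin n → M)
    (hf : ∀ x, c x ≠ i → f x = 0) : ∑ x, f x = ∑ a, f (em c i a) := by
  symm
  refine Finset.sum_of_injOn (em c i) (fun a _ b _ h => em_inj c h) (fun a _ => Finset.mem_coe.2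
    (Finset.mem_univ _)) (fun x _ hx => hf x fun h => hx ?_) fun a _ => rfl
  exact ⟨eb c i ⟨x, h⟩, Finset.mem_coe.2 (Finset.mem_univ _), em_eb c h⟩

theorem blk_mul {R : Type} [CommRing R] {A B : Matrix (Fin n) (Fin n) R} (hA : BD c A)
    (i : Fin r) : blk c i (A * B) = blk c i A * blk c i B := by
  ext a b
  rw [blk_apply, Matrix.mul_apply, Matrix.mul_apply]
  rw [sum_em c i]
  · rfl
  · intro x hx
    rw [hA (em c i a) x (by rw [c_em c]; exact fun h => hx h.symm), zero_mul]

theorem BD_mul {R : Type} [CommRing R] {A B : Matrix (Fin n) (Fin n) R} (hA : BD c A)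
    (hB : BD c B) : BD c (A * B) := by
  intro a b hab
  rw [Matrix.mul_apply]
  refine Finset.sum_eq_zero fun x _ => ?_
  by_cases h : c a = c x
  · rw [hB x b fun h' => hab (h.trans h'), mul_zero]
  · rw [hA a x h, zero_mul]

theorem BD_transpose {R : Type} [CommRing R] {A : Matrix (Fin n) (Fin n) R} (hA : BD c A) :
    BD c Aᵀ := fun a b hab => hA b a fun h => hab h.symm

theorem BD_map {R R' : Type} [CommRing R] [CommRing R'] (f : R →+* R')
    {A : Matrix (Fin n) (Fin n) R} (hA : BD c A) : BD c (A.map f) := fun a b hab => by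
  rw [Matrix.map_apply, hA a b hab, map_zero]

theorem BD_ext {R : Type} [CommRing R] {A B : Matrix (Fin n) (Fin n) R} (hA : BD c A)
    (hB : BD c B) (h : ∀ i, blk c i A = blk c i B) : A = B := by
  ext x y
  by_cases hxy : c x = c y
  · have h1 := congrFun (congrFun (h (c y)) (eb c (c y) ⟨x, hxy⟩)) (eb c (c y) ⟨y, rfl⟩)
    rw [blk_apply, blk_apply, em_eb, em_eb] at h1
    exact h1
  · rw [hA x y hxy, hB x y hxy]

/-- the block diagonal matrix with given blocks -/
def asm {R : Type} [Zero R] (t : ∀ i, Matrix (Fin (nb c i)) (Fin (nb c i)) R) :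
    Matrix (Fin n) (Fin n) R :=
  Matrix.of fun x y => if h : c x = c y then t (c y) (eb c (c y) ⟨x, h⟩) (eb c (c y) ⟨y, rfl⟩) else 0

theorem asm_apply {R : Type} [Zero R] (t : ∀ i, Matrix (Fin (nb c i)) (Fin (nb c i)) R) {i : Fin r}
    {x y : Fin n} (hx : c x = i) (hy : c y = i) :
    asm c t x y = t i (eb c i ⟨x, hx⟩) (eb c i ⟨y, hy⟩) := by
  subst hy
  rw [asm, Matrix.of_apply, dif_pos hx]

theorem BD_asm {R : Type} [CommRing R] (t : ∀ i, Matrix (Fin (nb c i)) (Fin (nb c i)) R) :
    BD c (asm c t) := fun x y h => by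
  rw [asm, Matrix.of_apply, dif_neg h]

theorem blk_asm {R : Type} [CommRing R] (t : ∀ i, Matrix (Fin (nb c i)) (Fin (nb c i)) R)
    (i : Fin r) : blk c i (asm c t) = t i := by
  ext a b
  rw [blk_apply, asm_apply c t (c_em c i a) (c_em c i b), eb_em, eb_em]

/-- the determinant of a block -/
theorem det_bl {R : Type} [CommRing R] (A : Matrix (Fin n) (Fin n) R) (i : Fin r) :
    (bl c i A).det = (blk c i A).det := by
  classical
  have h1 : (bl c i A).submatrix (Equiv.sumCompl fun a => c a = i)
      (Equiv.sumCompl fun a => c a = i) =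
      fromBlocks (A.submatrix (Subtype.val : {a // c a = i} → Fin n) Subtype.val) 0 0 1 := by
    ext x y
    rcases x with ⟨x, hx⟩ | ⟨x, hx⟩ <;> rcases y with ⟨y, hy⟩ | ⟨y, hy⟩
    · simp [bl, hx, hy]
    · have : x ≠ y := fun h => hy (h ▸ hx)
      simp [bl, hx, hy, this]
    · have : x ≠ y := fun h => hx (h ▸ hy)
      simp [bl, hx, hy, this]
    · simp [bl, hx, hy, Matrix.one_apply]
  have h2 := congrArg Matrix.det h1
  rw [Matrix.det_submatrix_equiv_self, Matrix.det_fromBlocks_zero₂₁, Matrix.det_one, mul_one] at h2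
  rw [h2]
  have h3 : blk c i A = (A.submatrix (Subtype.val : {a // c a = i} → Fin n) Subtype.val).submatrix
      (eb c i).symm (eb c i).symm := rfl
  rw [h3, Matrix.det_submatrix_equiv_self]

/-- the blocks of a nondegenerate form are nondegenerate -/
theorem det_blk_ne {F : Type} [Field F] {A : Matrix (Fin n) (Fin n) F} (hA : BD c A)
    (hd : A.det ≠ 0) (i : Fin r) : (blk c i A).det ≠ 0 := by
  intro h0
  obtain ⟨v, hv, hv0⟩ := Matrix.exists_mulVec_eq_zero_iff.2 h0
  apply hd
  refine Matrix.exists_mulVec_eq_zero_iff.1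
    ⟨fun x => if h : c x = i then v (eb c i ⟨x, h⟩) else 0, ?_, ?_⟩
  · intro h1
    apply hv
    funext a
    have h2 := congrFun h1 (em c i a)
    simp only [dif_pos (c_em c i a), Pi.zero_apply, eb_em] at h2
    exact h2
  · funext x
    rw [Matrix.mulVec, dotProduct, Pi.zero_apply, sum_em c i]
    · by_cases hx : c x = i
      · have h2 := congrFun hv0 (eb c i ⟨x, hx⟩)
        rw [Matrix.mulVec, dotProduct, Pi.zero_apply] at h2
        rw [← h2]
        refine Finset.sum_congr rfl fun a _ => ?_
        rw [dif_pos (c_em c i a), eb_em, blk_apply, em_eb]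
      · refine Finset.sum_eq_zero fun a _ => ?_
        rw [hA x (em c i a) (by rw [c_em c]; exact hx), zero_mul]
    · intro y hy
      rw [dif_neg hy, mul_zero]

end

end Pool.Agent.V7H82.OD
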