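import Pool.Agent.V7H82.OD.Gal

/-!
# The Mumford-Tate conjecture implies that the summands are irreducible with scalar commutants
-/

set_option autoImplicit false
set_option linter.unusedSectionVars false
set_option linter.style.haveILetI false

open Matrix Filter Topology NumberField IsDedekindDomain
open Pool.Agent.Y142.ZO Pool.Agent.Y142.ZI
open Pool.Agent.Y95.MT
open Pool.Agent.W544.PG (HS BD bl)
open Pool.Agent.R932.EV (SS SC)

namespace Pool.Agent.V7H82.OD

noncomputable section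

section ext
variable {n r : ℕ} {F : Type} [Field F] (c : Fin n → Fin r)

/-- restriction of a vector to the colour `i` -/
def res (F : Type) [Field F] (i : Fin r) : (Fin n → F) →ₗ[F] (Fin (nb c i) → F) :=
  LinearMap.funLeft F F (em c i)

theorem res_apply (i : Fin r) (u : Fin n → F) (a : Fin (nb c i)) : res c F i u a = u (em c i a) := rfl

/-- extension by zero -/
def ext (i : Fin r) (w : Fin (nb c i) → F) : Fin n → F :=
  fun x => if h : c x = i then w (eb c i ⟨x, h⟩) else 0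

theorem res_ext (i : Fin r) (w : Fin (nb c i) → F) : res c F i (ext c i w) = w := by
  funext a
  rw [res_apply, ext, dif_pos (c_em c i a), eb_em]

theorem ext_mem (i : Fin r) (w : Fin (nb c i) → F) : ext c i w ∈ (col c i : Submodule F (Fin n → F)) :=
  fun x hx => by rw [ext, dif_neg hx]

theorem res_inj {i : Fin r} {u : Fin n → F} (hu : u ∈ (col c i : Submodule F (Fin n → F)))
    (h : res c F i u = 0) : u = 0 := by
  funext x
  by_cases hx : c x = i
  · have h1 := congrFun h (eb c i ⟨x, hx⟩)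
    rw [res_apply, em_eb] at h1
    exact h1
  · exact hu x hx

theorem res_mulVec {A : Matrix (Fin n) (Fin n) F} (hA : BD c A) (i : Fin r) (u : Fin n → F) :
    res c F i (A *ᵥ u) = blk c i A *ᵥ res c F i u := by
  funext a
  rw [res_apply, Matrix.mulVec, dotProduct, sum_em c i]
  · rfl
  · intro x hx
    rw [hA (em c i a) x (by rw [c_em c]; exact fun h => hx h.symm), zero_mul]

theorem col_mulVec {A : Matrix (Fin n) (Fin n) F} (hA : BD c A) {i : Fin r} {u : Fin n → F}
    (hu : u ∈ (col c i : Submodule F (Fin n → F))) :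
    A *ᵥ u ∈ (col c i : Submodule F (Fin n → F)) := by
  intro x hx
  rw [Matrix.mulVec, dotProduct]
  refine Finset.sum_eq_zero fun y _ => ?_
  by_cases hy : c y = i
  · rw [hA x y (by rw [hy]; exact hx), zero_mul]
  · rw [hu y hy, mul_zero]

end ext

section conv
variable {ℓ : ℕ} [Fact ℓ.Prime] {n r : ℕ} {c : Fin n → Fin r} {κ : Type} [Fintype κ]
  [DecidableEq κ] {Γ : Type} [Group Γ] {T : HS n} {p q : Fin r → ℕ}
  {β : Γ →* Matrix (Fin n) (Fin n) ℤ_[ℓ]} {v : Γ →* Matrix κ κ ℚ_[ℓ]}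

/-- Matrices which commute with a subgroup of finite index commute with the points of the product of
the special orthogonal groups. -/
theorem comm_of_mtc (hB : T.Big c p q)
    (h : MTC (hM (fun _ => (1 : Matrix κ κ ℂ)) T) (tot v β)) {Δ : Subgroup Γ} (hΔ : Δ.FiniteIndex)
    {A : Matrix (Fin n) (Fin n) ℚ_[ℓ]} (hA : ∀ s ∈ Δ, A * qm (β s) = qm (β s) * A)
    {t : Matrix (Fin n) (Fin n) (AlgebraicClosure ℚ_[ℓ])} (ht : InSO c T.Q t) :
    A.map (algebraMap ℚ_[ℓ] (AlgebraicClosure ℚ_[ℓ])) * t =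
      t * A.map (algebraMap ℚ_[ℓ] (AlgebraicClosure ℚ_[ℓ])) := by
  obtain ⟨e⟩ := exists_emb ℓ
  have hVd : ∀ z : ℂ, z ≠ 0 → ((fun _ => (1 : Matrix κ κ ℂ)) z).det ≠ 0 := fun _ _ => by
    rw [Matrix.det_one]
    exact one_ne_zero
  obtain ⟨j, hj⟩ : ∃ j, j = algebraMap ℚ_[ℓ] (AlgebraicClosure ℚ_[ℓ]) := ⟨_, rfl⟩
  rw [← hj]
  have hdet : (fromBlocks (1 : Matrix κ κ (AlgebraicClosure ℚ_[ℓ])) 0 0 t).det ≠ 0 := by
    rw [fb_det, Matrix.det_one, one_mul]
    exact InSO_det (Pool.Agent.W74.PG.det_ne T) ht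
  have hg : InMT (hM (fun _ => (1 : Matrix κ κ ℂ)) T)
      (fromBlocks (1 : Matrix κ κ (AlgebraicClosure ℚ_[ℓ])) 0 0 t) := by
    rw [InMT_iff (c := c) hB hVd star_N e hdet]
    rw [Matrix.toBlocks_fromBlocks₁₁, Matrix.toBlocks_fromBlocks₂₂]
    exact ⟨rfl, InMT_one e _, ht⟩
  rw [← h _ hdet] at hg
  ext a b
  let f : MvPolynomial ((κ ⊕ Fin n) × (κ ⊕ Fin n)) (AlgebraicClosure ℚ_[ℓ]) :=
    ∑ c, (MvPolynomial.C (j (A a c)) * MvPolynomial.X (Sum.inr c, Sum.inr b) -
      MvPolynomial.X (Sum.inr a, Sum.inr c) * MvPolynomial.C (j (A c b)))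
  have hev : ∀ (M : Matrix (κ ⊕ Fin n) (κ ⊕ Fin n) (AlgebraicClosure ℚ_[ℓ])),
      MvPolynomial.aeval (fun q : (κ ⊕ Fin n) × (κ ⊕ Fin n) => M q.1 q.2) f =
      (A.map j * M.toBlocks₂₂ - M.toBlocks₂₂ * A.map j) a b := by
    intro M
    simp only [f, map_sum, map_sub, map_mul, MvPolynomial.aeval_C, MvPolynomial.aeval_X,
      Algebra.algebraMap_self, RingHom.id_apply, Matrix.sub_apply, Matrix.mul_apply,
      Matrix.map_apply, Finset.sum_sub_distrib]
    rfl
  have h1 := hg f ⟨Δ, hΔ, fun s hs => by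
    have h2 := hev ((tot v β s).map j)
    have h3 : ((tot v β s).map j).toBlocks₂₂ = (qm (β s)).map j := rfl
    rw [h3, ← Matrix.map_mul, ← Matrix.map_mul, hA s hs, sub_self] at h2
    rw [← hj]
    exact h2⟩
  rw [hev, Matrix.toBlocks_fromBlocks₂₂, Matrix.sub_apply, sub_eq_zero] at h1
  exact h1

/-- The summands are irreducible. -/
theorem ss_of_mtc (hB : T.Big c p q) (hβ : ∀ σ, BD c (β σ))
    (h : MTC (hM (fun _ => (1 : Matrix κ κ ℂ)) T) (tot v β)) (i : Fin r) :
    SS (rb c β hβ i) := by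
  have hVd : ∀ z : ℂ, z ≠ 0 → ((fun _ => (1 : Matrix κ κ ℂ)) z).det ≠ 0 := fun _ _ => by
    rw [Matrix.det_one]
    exact one_ne_zero
  intro W hW
  let W' : Submodule ℚ_[ℓ] (Fin n → ℚ_[ℓ]) := col c i ⊓ W.comap (res c ℚ_[ℓ] i)
  have h1 := SI_of_MTC hB hVd star_N h i ⊤ inferInstance W' inf_le_left (by
    rintro σ - w ⟨hw1, hw2⟩
    refine ⟨col_mulVec c (BD_qm (hβ σ)) hw1, ?_⟩
    rw [SetLike.mem_coe, Submodule.mem_comap, res_mulVec c (BD_qm (hβ σ))]
    exact hW σ _ hw2)
  have hmem : ∀ w ∈ W, ext c i w ∈ W' := fun w hw => ⟨ext_mem c i w, by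
    rw [SetLike.mem_coe, Submodule.mem_comap, res_ext]
    exact hw⟩
  rcases h1 with h1 | h1
  · have h2 : W = ⊥ := by
      rw [eq_bot_iff]
      intro w hw
      have h3 := hmem w hw
      rw [h1, Submodule.mem_bot] at h3
      rw [Submodule.mem_bot, ← res_ext c i w, h3, map_zero]
    subst h2
    exact ⟨⊤, isCompl_bot_top, fun _ _ _ => Submodule.mem_top⟩
  · have h2 : W = ⊤ := by
      rw [eq_top_iff]
      intro w _
      have h3 := ext_mem c i w
      rw [← h1] at h3
      have h4 := h3.2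
      rw [SetLike.mem_coe, Submodule.mem_comap, res_ext] at h4
      exact h4
    subst h2
    exact ⟨⊥, isCompl_top_bot, fun σ w hw => by
      rw [Submodule.mem_bot] at hw ⊢
      rw [hw, mulVec_zero]⟩

/-- The commutants of the summands are scalar. -/
theorem sc_of_mtc [TopologicalSpace Γ] [IsTopologicalGroup Γ] [CompactSpace Γ]
    (hB : T.Big c p q) (hβ : ∀ σ, BD c (β σ))
    (h : MTC (hM (fun _ => (1 : Matrix κ κ ℂ)) T) (tot v β)) (i : Fin r) :
    SC (rb c β hβ i) := by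
  classical
  intro A U hU hA
  have hcard := Big.card hB i
  have hpos : 0 < nb c i := by
    unfold nb
    rw [Fintype.card_subtype]
    omega
  have hne : Nonempty (Fin (nb c i)) := ⟨⟨0, hpos⟩⟩
  obtain ⟨j, hj⟩ : ∃ j, j = algebraMap ℚ_[ℓ] (AlgebraicClosure ℚ_[ℓ]) := ⟨_, rfl⟩
  let B : Matrix (Fin n) (Fin n) ℚ_[ℓ] := asm c fun k => if hk : k = i then hk ▸ A else 0
  have hBB : BD c B := BD_asm c _
  have hBi : blk c i B = A := by
    simp only [B]
    rw [blk_asm, dif_pos rfl]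
  have hBk : ∀ k, k ≠ i → blk c k B = 0 := fun k hk => by
    simp only [B]
    rw [blk_asm, dif_neg hk]
  have hcomm : ∀ t : Matrix (Fin n) (Fin n) (AlgebraicClosure ℚ_[ℓ]), InSO c T.Q t →
      B.map j * t = t * B.map j := fun t ht => by
    rw [hj]
    refine comm_of_mtc hB h (Pool.Agent.V7H82.PR.finiteIndex_of_open hU) (fun s hs => ?_) ht
    refine BD_ext c (BD_mul c hBB (BD_qm (hβ s))) (BD_mul c (BD_qm (hβ s)) hBB) fun k => ?_
    rw [blk_mul c hBB, blk_mul c (BD_qm (hβ s))]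
    by_cases hk : k = i
    · subst hk
      rw [hBi]
      exact hA s hs
    · rw [hBk k hk, zero_mul, mul_zero]
  obtain ⟨μ, hμ⟩ := Module.End.exists_eigenvalue (K := AlgebraicClosure ℚ_[ℓ])
    (toLin' (A.map j))
  obtain ⟨w, hw⟩ := hμ.exists_hasEigenvector
  have hw1 : A.map j *ᵥ w = μ • w := by
    have h1 := hw.apply_eq_smul
    rwa [toLin'_apply] at h1
  have hBj : BD c (B.map j) := BD_map c j hBB
  have hres : ∀ u : Fin n → AlgebraicClosure ℚ_[ℓ],
      res c _ i (B.map j *ᵥ u) = A.map j *ᵥ res c _ i u := fun u => by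
    rw [res_mulVec c hBj, blk_map, hBi]
  let W : Submodule (AlgebraicClosure ℚ_[ℓ]) (Fin n → AlgebraicClosure ℚ_[ℓ]) :=
    col c i ⊓ Module.End.eigenspace (toLin' (B.map j)) μ
  have hW : W = ⊥ ∨ W = Pool.Agent.Y95.MT.col c i := by
    refine SO_irr (F := AlgebraicClosure ℚ_[ℓ]) T.symm hB.bQ (Pool.Agent.W74.PG.det_ne T) hcard
      inf_le_left fun t ht w hw => ⟨col_mulVec c ht.2.1 hw.1, ?_⟩
    have h2 := hw.2
    rw [SetLike.mem_coe, Module.End.mem_eigenspace_iff] at h2 ⊢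
    rw [toLin'_apply] at h2 ⊢
    rw [mulVec_mulVec, hcomm t ht, ← mulVec_mulVec, h2, mulVec_smul]
  have hwW : ext c i w ∈ W := by
    refine ⟨ext_mem c i w, ?_⟩
    rw [SetLike.mem_coe, Module.End.mem_eigenspace_iff, toLin'_apply, ← sub_eq_zero]
    refine res_inj c (i := i) (Submodule.sub_mem _ (col_mulVec c hBj (ext_mem c i w))
      (Submodule.smul_mem _ _ (ext_mem c i w))) ?_
    rw [map_sub, map_smul, hres, res_ext, hw1, sub_self]
  rcases hW with hW | hW
  · exfalso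
    rw [hW, Submodule.mem_bot] at hwW
    apply hw.2
    rw [← res_ext c i w, hwW, map_zero]
  · have h1 : A.map j = μ • (1 : Matrix _ _ (AlgebraicClosure ℚ_[ℓ])) := by
      apply Matrix.toLin'.injective
      apply LinearMap.ext
      intro x
      have h2 : ext c i x ∈ W := by
        rw [hW]
        exact ext_mem c i x
      have h3 := h2.2
      rw [SetLike.mem_coe, Module.End.mem_eigenspace_iff, toLin'_apply] at h3
      have h4 := congrArg (res c _ i) h3
      rw [hres, map_smul, res_ext] at h4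
      rw [toLin'_apply, toLin'_apply, h4, smul_mulVec, one_mulVec]
    refine ⟨A ⟨0, hpos⟩ ⟨0, hpos⟩, ?_⟩
    have h2 : μ = j (A ⟨0, hpos⟩ ⟨0, hpos⟩) := by
      have h3 := congrFun (congrFun h1 ⟨0, hpos⟩) ⟨0, hpos⟩
      rw [Matrix.map_apply, Matrix.smul_apply, Matrix.one_apply_eq, smul_eq_mul, mul_one] at h3
      exact h3.symm
    ext a b
    have h3 := congrFun (congrFun h1 a) b
    rw [Matrix.map_apply, h2] at h3
    apply j.injective
    rw [h3, Matrix.smul_apply, Matrix.smul_apply, smul_eq_mul, smul_eq_mul, map_mul,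
      Matrix.one_apply, Matrix.one_apply]
    split_ifs <;> simp

end conv

end

end Pool.Agent.V7H82.OD
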