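import Pool.Agent.R932.GR.Full
import Pool.Agent.R932.PO.All
import Pool.Agent.V7H82.PR.Mt
import Pool.Agent.V7H82.OD.Blk

/-!
# The blocks of the representation, and the Mumford-Tate conjecture at one prime
-/

set_option autoImplicit false
set_option linter.unusedSectionVars false
set_option linter.style.haveILetI false

open Matrix Filter Topology NumberField IsDedekindDomain
open Pool.Agent.Y142.ZO Pool.Agent.Y142.ZI
open Pool.Agent.Y142.ZS (SpLie)
open Pool.Agent.Y95.MT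
open Pool.Agent.W544.PG (HS BD bl)
open Pool.Agent.R932 (continuous_qm skew_iff tanIn_of_finite soIn_of_tan)
open Pool.Agent.R932.GR (ZarF Pf evf joint_of_zar)
open Pool.Agent.R932.PO (JTan IsForm Kind Fits Allows Sys several tasks)
open Pool.Agent.R932.EV (SS SC)

namespace Pool.Agent.V7H82.OD

noncomputable section

section
variable {ℓ : ℕ} [Fact ℓ.Prime] {n r : ℕ} {c : Fin n → Fin r} {κ : Type} [Fintype κ]
  [DecidableEq κ] {Γ : Type} [Group Γ] {T : HS n} {p q : Fin r → ℕ}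
  {β : Γ →* Matrix (Fin n) (Fin n) ℤ_[ℓ]} {v : Γ →* Matrix κ κ ℚ_[ℓ]}

theorem BD_qm {A : Matrix (Fin n) (Fin n) ℤ_[ℓ]} (h : BD c A) : BD c (qm A) := by
  intro a b hab
  unfold qm
  rw [Matrix.map_apply, h a b hab, map_zero]

/-- the representation on the summand `i` -/
def rb (c : Fin n → Fin r) (β : Γ →* Matrix (Fin n) (Fin n) ℤ_[ℓ]) (hβ : ∀ σ, BD c (β σ))
    (i : Fin r) : Γ →* Matrix (Fin (nb c i)) (Fin (nb c i)) ℚ_[ℓ] where
  toFun σ := blk c i (qm (β σ))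
  map_one' := by rw [map_one, qm_one, blk_one]
  map_mul' σ τ := by rw [map_mul, qm_mul, blk_mul c (BD_qm (hβ σ))]

theorem rb_apply {hβ : ∀ σ, BD c (β σ)} (i : Fin r) (σ : Γ) :
    rb c β hβ i σ = blk c i (qm (β σ)) := rfl

/-- the form on the summand `i` -/
abbrev jb (ℓ : ℕ) [Fact ℓ.Prime] (c : Fin n → Fin r) (T : HS n) (i : Fin r) :
    Matrix (Fin (nb c i)) (Fin (nb c i)) ℚ_[ℓ] :=
  (blk c i T.Q).map (algebraMap ℚ ℚ_[ℓ])

theorem jb_eq (i : Fin r) : jb ℓ c T i = blk c i (T.Q.map (algebraMap ℚ ℚ_[ℓ])) := rfl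

theorem BD_Q {F : Type} [Field F] [Algebra ℚ F] (hbQ : BD c T.Q) :
    BD c (T.Q.map (algebraMap ℚ F)) := BD_map c _ hbQ

theorem jb_symm (i : Fin r) : (jb ℓ c T i)ᵀ = jb ℓ c T i := by
  rw [jb_eq, ← blk_transpose, ← Matrix.transpose_map, T.symm]

theorem jb_det (hbQ : BD c T.Q) (i : Fin r) : (jb ℓ c T i).det ≠ 0 := by
  rw [jb_eq]
  exact det_blk_ne c (BD_Q hbQ) (Pool.Agent.R932.qdet T) i

/-- **From the Mumford-Tate conjecture to the Zariski closure of the image.** -/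
theorem zarF (hB : T.Big c p q) (hβ : ∀ σ, BD c (β σ))
    (h : MTC (hM (fun _ => (1 : Matrix κ κ ℂ)) T) (tot v β)) :
    ZarF (fun i => rb c β hβ i) (fun i => jb ℓ c T i) := by
  rintro f ⟨Δ, hΔ, hf⟩ t ht htd
  obtain ⟨e⟩ := exists_emb ℓ
  have hVd : ∀ z : ℂ, z ≠ 0 → ((fun _ => (1 : Matrix κ κ ℂ)) z).det ≠ 0 := fun _ _ => by
    rw [Matrix.det_one]
    exact one_ne_zero
  obtain ⟨j, hj⟩ : ∃ j, j = algebraMap ℚ_[ℓ] (AlgebraicClosure ℚ_[ℓ]) := ⟨_, rfl⟩
  have hbQ := hB.bQ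
  -- the family is an isometry of `T`
  have hso : InSO c T.Q (asm c t) := by
    refine ⟨?_, BD_asm c t, fun i => ?_⟩
    · have h1 : BD c ((asm c t)ᵀ * T.Q.map (algebraMap ℚ ℚ_[ℓ])) :=
        BD_mul c (BD_transpose c (BD_asm c t)) (BD_Q hbQ)
      refine BD_ext c (BD_mul c h1 (BD_asm c t)) (BD_Q hbQ) fun i => ?_
      rw [blk_mul c h1, blk_mul c (BD_transpose c (BD_asm c t)), blk_transpose, blk_asm]
      exact ht i
    · rw [det_bl, blk_asm, htd]
  have hso' : InSO c T.Q ((asm c t).map j) := InSO_map j hso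
  have hdet : (fromBlocks (1 : Matrix κ κ (AlgebraicClosure ℚ_[ℓ])) 0 0
      ((asm c t).map j)).det ≠ 0 := by
    rw [fb_det, Matrix.det_one, one_mul]
    exact InSO_det (Pool.Agent.W74.PG.det_ne T) hso'
  have hg : InMT (hM (fun _ => (1 : Matrix κ κ ℂ)) T)
      (fromBlocks (1 : Matrix κ κ (AlgebraicClosure ℚ_[ℓ])) 0 0 ((asm c t).map j)) := by
    rw [InMT_iff (c := c) hB hVd star_N e hdet]
    rw [Matrix.toBlocks_fromBlocks₁₁, Matrix.toBlocks_fromBlocks₂₂]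
    exact ⟨rfl, InMT_one e _, hso'⟩
  rw [← h _ hdet] at hg
  let F : MvPolynomial ((κ ⊕ Fin n) × (κ ⊕ Fin n)) (AlgebraicClosure ℚ_[ℓ]) :=
    MvPolynomial.rename (fun x : (Σ i, Fin (nb c i) × Fin (nb c i)) =>
      ((Sum.inr (em c x.1 x.2.1), Sum.inr (em c x.1 x.2.2)) : (κ ⊕ Fin n) × (κ ⊕ Fin n)))
      (MvPolynomial.map j f)
  have hev : ∀ (M : Matrix (κ ⊕ Fin n) (κ ⊕ Fin n) (AlgebraicClosure ℚ_[ℓ]))
      (A : Matrix (Fin n) (Fin n) ℚ_[ℓ]), M.toBlocks₂₂ = A.map j →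
      MvPolynomial.aeval (fun q : (κ ⊕ Fin n) × (κ ⊕ Fin n) => M q.1 q.2) F =
      j (evf (fun i => blk c i A) f) := by
    intro M A hM
    have h1 : (fun q : (κ ⊕ Fin n) × (κ ⊕ Fin n) => M q.1 q.2) ∘
        (fun x : (Σ i, Fin (nb c i) × Fin (nb c i)) =>
          ((Sum.inr (em c x.1 x.2.1), Sum.inr (em c x.1 x.2.2)) : (κ ⊕ Fin n) × (κ ⊕ Fin n))) =
        fun x => j (blk c x.1 A x.2.1 x.2.2) := by
      funext x
      have h2 := congrFun (congrFun hM (em c x.1 x.2.1)) (em c x.1 x.2.2)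
      exact h2
    simp only [F]
    rw [MvPolynomial.aeval_rename, h1, MvPolynomial.aeval_def, Algebra.algebraMap_self,
      MvPolynomial.eval₂_map, RingHomCompTriple.comp_eq]
    unfold evf
    rw [MvPolynomial.eval, MvPolynomial.coe_eval₂Hom, MvPolynomial.eval₂_comp_left j]
    congr 1
  have h1 := hg F ⟨Δ, hΔ, fun σ hσ => by
    have h2 := hev ((tot v β σ).map j) (qm (β σ)) rfl
    have h3 := hf σ hσ
    rw [← hj]
    refine Eq.trans h2 ?_
    have h4 : evf (fun i => blk c i (qm (β σ))) f = 0 := h3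
    rw [h4, map_zero]⟩
  rw [hev _ (asm c t) (by rw [Matrix.toBlocks_fromBlocks₂₂])] at h1
  have h5 := (_root_.map_eq_zero j).1 h1
  have h6 : (fun i => blk c i (asm c t)) = t := funext fun i => blk_asm c t i
  rw [h6] at h5
  exact h5

end

end

end Pool.Agent.V7H82.OD
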