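import Pool.Agent.V7H82.PR.Expl
import Pool.Agent.V7H82.OD.Main

/-!
# Explicit criteria at one prime `ℓ`, for general orthogonal representations
-/

set_option autoImplicit false
set_option linter.unusedSectionVars false
set_option linter.style.haveILetI false

open Matrix Polynomial Filter Topology NumberField IsDedekindDomain
open Pool.Agent.Y142.ZO Pool.Agent.Y142.ZI
open Pool.Agent.Y142.ZS (NiceP S_BADIRR)
open Pool.Agent.Y142.ZD (GenO)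
open Pool.Agent.R932.EV (SS SC strong_of_ss alg_top full_of_genO full_of_good)
open Pool.Agent.V7H82.PR (QB IsHom HomogeneousRoots card_rt self_one generic no_three hinv_one
  lift_c sc_of_root pow_closure)

namespace Pool.Agent.V7H82.OD

noncomputable section

variable {K : Type} [Field K] [NumberField K] {n : ℕ} {S : Set (HeightOneSpectrum (𝓞 K))}
  {P : HeightOneSpectrum (𝓞 K) → ℚ[X]} {Γ : Type} [Group Γ] [TopologicalSpace Γ]
  [IsTopologicalGroup Γ] [CompactSpace Γ] {s : GK K →* Γ} {ℓ : ℕ} [Fact ℓ.Prime]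
  {J : Matrix (Fin n) (Fin n) ℚ_[ℓ]} {ρ : Γ →* Matrix (Fin n) (Fin n) ℚ_[ℓ]}

/-- an orthogonal representation with Frobenius polynomials -/
structure RepO (s : GK K →* Γ) (J : Matrix (Fin n) (Fin n) ℚ_[ℓ])
    (S : Set (HeightOneSpectrum (𝓞 K))) (P : HeightOneSpectrum (𝓞 K) → ℚ[X])
    (ρ : Γ →* Matrix (Fin n) (Fin n) ℚ_[ℓ]) : Prop where
  cont : Continuous ρ
  symm : Jᵀ = J
  det : J.det ≠ 0
  form : ∀ σ, Isom J (ρ σ)
  frob : ∀ v ∉ S, (ℓ : 𝓞 K) ∉ v.asIdeal → ∀ σ : GK K, IsFrobenius v σ →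
    (ρ (s σ⁻¹)).charpoly = (P v).map (algebraMap ℚ ℚ_[ℓ])

theorem RepO.orthogonal (h : RepO s J S P ρ) (hs : Continuous s) :
    Orthogonal K n ℓ (ρ.comp s) J S P :=
  ⟨h.cont.comp hs, h.symm, h.det, fun g => h.form (s g),
    fun v hv hvℓ σ hσ => h.frob v hv hvℓ σ hσ⟩

/-- The inverse of a root is a root. -/
theorem root_inv (h : RepO s J S P ρ) {v : HeightOneSpectrum (𝓞 K)} (hv : v ∉ S)
    (hvℓ : (ℓ : 𝓞 K) ∉ v.asIdeal) (hP0 : P v ≠ 0) {x : QB} (hx : aeval x (P v) = 0) :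
    x ≠ 0 ∧ aeval x⁻¹ (P v) = 0 := by
  obtain ⟨σ, hσ⟩ := Pool.Agent.W401.Frob.exists_frob v
  have hchar : (ρ (s σ⁻¹)).charpoly = (P v).map (algebraMap ℚ ℚ_[ℓ]) :=
    h.frob v hv hvℓ σ hσ
  have hg : Isom (J) (ρ (s σ⁻¹)) := h.form (s σ⁻¹)
  have hB := h.det
  set g := ρ (s σ⁻¹) with hgdef
  obtain ⟨ι⟩ := emb ℓ
  have hy := push_root ℓ ι hx
  rw [← hchar] at hy
  have hdet : g.det ≠ 0 := by
    intro h0
    have h1 : gᵀ * J * g = J := hg
    have h2 := congrArg Matrix.det h1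
    rw [det_mul, h0, mul_zero] at h2
    exact hB h2.symm
  have hx0 : ι x ≠ 0 := by
    intro h0
    rw [h0, ← coeff_zero_eq_aeval_zero'] at hy
    have h2 : g.charpoly.coeff 0 = 0 := (_root_.map_eq_zero _).1 hy
    have h3 := Matrix.det_eq_sign_charpoly_coeff g
    rw [h2, mul_zero] at h3
    exact hdet h3
  have h4 : aeval (ι x)⁻¹ g.charpoly = 0 := Pool.Agent.Y949.ZI.inv_root
    (algebraMap ℚ_[ℓ] (AlgebraicClosure ℚ_[ℓ])) hB hg (ι x) hx0 hy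
  rw [hchar] at h4
  obtain ⟨r, hr, hr'⟩ := lift_root ℓ ι hP0 h4
  rw [← map_inv₀] at hr'
  have h5 := ι.injective hr'
  refine ⟨fun h0 => hx0 (by rw [h0, map_zero]), ?_⟩
  rw [← h5]
  exact hr

/-- The polynomial of a place is monic. -/
theorem monic_place (h : RepO s J S P ρ) {v : HeightOneSpectrum (𝓞 K)} (hv : v ∉ S)
    (hvℓ : (ℓ : 𝓞 K) ∉ v.asIdeal) : (P v).Monic := by
  obtain ⟨σ, hσ⟩ := Pool.Agent.W401.Frob.exists_frob v
  have hchar : (ρ (s σ⁻¹)).charpoly = (P v).map (algebraMap ℚ ℚ_[ℓ]) :=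
    h.frob v hv hvℓ σ hσ
  have h1 := Matrix.charpoly_monic (ρ (s σ⁻¹))
  rw [hchar] at h1
  exact Polynomial.monic_of_injective (algebraMap ℚ ℚ_[ℓ]).injective h1

/-- A place whose polynomial has doubly homogeneous pairs of roots is generic. -/
theorem genO (h : RepO s J S P ρ) {v : HeightOneSpectrum (𝓞 K)} (hv : v ∉ S)
    (hvℓ : (ℓ : 𝓞 K) ∉ v.asIdeal) {b : ℕ} (hQ : IsHom (P v) b) : GenO S P v := by
  have hmon := monic_place h hv hvℓ
  have hcard : Nat.card (Pool.Agent.V7H82.PR.Rt (P v)) = 2 * b := (card_rt hQ.sep).trans hQ.deg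
  have hinv : ∀ x : QB, aeval x (P v) = 0 → x ≠ 0 ∧ aeval x⁻¹ (P v) = 0 := fun x hx =>
    root_inv h hv hvℓ hmon.ne_zero hx
  have hself := self_one hQ.hom hcard
  refine ⟨⟨hv, hmon, hQ.sep, hQ.pow⟩, fun x hx h1 => hself x hx (by rw [h1, Rat.cast_one]), ?_⟩
  intro x y z w hx hy hz hw hxy hxw
  have h1 := generic one_ne_zero (hinv_one hinv) hQ.hom hQ.pow hself hcard hQ.num hmon.ne_zero
    hx hy hz hw hxy hxw
  rwa [Rat.cast_one] at h1

/-- **Even rank.** -/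
theorem full_even (h : RepO s J S P ρ) {v : HeightOneSpectrum (𝓞 K)} (hv : v ∉ S)
    (hvℓ : (ℓ : 𝓞 K) ∉ v.asIdeal) {b : ℕ} (hQ : IsHom (P v) b) (hn : 0 < n)
    (hirr : StronglyIrreducible ℓ ρ) (hsc : SC ρ) :
    FullLie ℓ ρ (J) :=
  full_of_genO (genO h hv hvℓ hQ) ℓ s ρ J h.symm h.det h.form
    (fun σ hσ => h.frob v hv hvℓ σ hσ)
    (fun 𝒜 h𝒜 => alg_top ρ h.cont hn hirr hsc 𝒜 h𝒜)

/-- The inverse of a root of the nontrivial factor is a root of it. -/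
theorem root_inv_odd (h : RepO s J S P ρ) {v : HeightOneSpectrum (𝓞 K)} (hv : v ∉ S)
    (hvℓ : (ℓ : 𝓞 K) ∉ v.asIdeal) {b : ℕ} {Q : ℚ[X]} (hPv : P v = (X - 1) * Q) (hQ : IsHom Q b)
    {x : QB} (hx : aeval x Q = 0) : x ≠ 0 ∧ aeval x⁻¹ Q = 0 := by
  have hcard : Nat.card (Pool.Agent.V7H82.PR.Rt Q) = 2 * b := (card_rt hQ.sep).trans hQ.deg
  have hself := self_one hQ.hom hcard
  obtain ⟨h1, h2⟩ := root_inv h hv hvℓ (monic_place h hv hvℓ).ne_zero (x := x) (by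
    rw [hPv, map_mul, hx, mul_zero])
  refine ⟨h1, ?_⟩
  rw [hPv, map_mul, map_sub, aeval_X, map_one] at h2
  rcases mul_eq_zero.1 h2 with h3 | h3
  · exfalso
    have h4 : x = 1 := by
      exact inv_eq_one.1 (sub_eq_zero.1 h3)
    exact hself x hx (by rw [h4, one_mul, Rat.cast_one])
  · exact h3

/-- The place is good. -/
theorem goodPlace (h : RepO s J S P ρ) {v : HeightOneSpectrum (𝓞 K)} (hv : v ∉ S)
    (hvℓ : (ℓ : 𝓞 K) ∉ v.asIdeal) {b : ℕ} {Q : ℚ[X]} (hPv : P v = (X - 1) * Q) (hQ : IsHom Q b) :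
    GoodPlace S P v Q ∧ ∀ x y z : ℂ, aeval x Q = 0 → aeval y Q = 0 → aeval z Q = 0 → x * y ≠ z := by
  have hcard : Nat.card (Pool.Agent.V7H82.PR.Rt Q) = 2 * b := (card_rt hQ.sep).trans hQ.deg
  have hself := self_one hQ.hom hcard
  have hinv : ∀ x : QB, aeval x Q = 0 → x ≠ 0 ∧ aeval x⁻¹ Q = 0 := fun x hx =>
    root_inv_odd h hv hvℓ hPv hQ hx
  obtain ⟨ψ⟩ := nonempty_LC
  refine ⟨⟨hv, hPv, fun k hk => coprime_of_roots (fun k hk x hx h1 => ?_) k hk⟩, ?_⟩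
  · obtain ⟨r, hr, rfl⟩ := lift_c ψ hQ.sep.ne_zero hx
    rw [← map_pow, ← map_one ψ] at h1
    have h2 := ψ.injective h1
    obtain ⟨h3, h4⟩ := hinv r hr
    have h5 := hQ.pow k r r⁻¹ hk hr h4 (by rw [inv_pow, h2, inv_one])
    apply hself r hr
    rw [Rat.cast_one]
    conv_lhs => rw [h5]
    nth_rewrite 1 [← h5]
    exact mul_inv_cancel₀ h3
  · intro x y z hx hy hz hxy
    obtain ⟨x', hx', rfl⟩ := lift_c ψ hQ.sep.ne_zero hx
    obtain ⟨y', hy', rfl⟩ := lift_c ψ hQ.sep.ne_zero hy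
    obtain ⟨z', hz', rfl⟩ := lift_c ψ hQ.sep.ne_zero hz
    rw [← map_mul] at hxy
    exact no_three hinv hQ.hom hQ.pow hcard hQ.num hQ.sep.ne_zero hx' hy' hz' (ψ.injective hxy)

/-- **Odd rank.** -/
theorem full_odd (h : RepO s J S P ρ) {v : HeightOneSpectrum (𝓞 K)} (hv : v ∉ S)
    (hvℓ : (ℓ : 𝓞 K) ∉ v.asIdeal) {b : ℕ} {Q : ℚ[X]} (hPv : P v = (X - 1) * Q) (hQ : IsHom Q b)
    (hirr : StronglyIrreducible ℓ ρ) :
    FullLie ℓ ρ (J) := by
  obtain ⟨h1, h2⟩ := goodPlace h hv hvℓ hPv hQ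
  exact full_of_good h1 h2 ℓ s ρ _ h.cont h.symm h.det h.form
    (fun σ hσ => h.frob v hv hvℓ σ hσ) hirr

/-- The degree of the polynomial of a place. -/
theorem natDegree_place (h : RepO s J S P ρ) {v : HeightOneSpectrum (𝓞 K)} (hv : v ∉ S)
    (hvℓ : (ℓ : 𝓞 K) ∉ v.asIdeal) : (P v).natDegree = n := by
  obtain ⟨σ, hσ⟩ := Pool.Agent.W401.Frob.exists_frob v
  have hchar : (ρ (s σ⁻¹)).charpoly = (P v).map (algebraMap ℚ ℚ_[ℓ]) :=
    h.frob v hv hvℓ σ hσ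
  have h1 := Matrix.charpoly_natDegree_eq_dim (ρ (s σ⁻¹))
  rw [hchar, natDegree_map, Fintype.card_fin] at h1
  exact h1

/-- **Even rank.** -/
theorem full_even_expl (h : RepO s J S P ρ) {v : HeightOneSpectrum (𝓞 K)} (hv : v ∉ S)
    (hvℓ : (ℓ : 𝓞 K) ∉ v.asIdeal) {b : ℕ} (hQ : IsHom (P v) b) (hn : 0 < n)
    (hirr : Irreducible ((P v).map (algebraMap ℚ ℚ_[ℓ])))
    {u : HeightOneSpectrum (𝓞 K)} (hu : u ∉ S) (huℓ : (ℓ : 𝓞 K) ∉ u.asIdeal)
    (hsep : (P u).Separable)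
    (hpow : ∀ (k : ℕ) (x y : QB), 0 < k → aeval x (P u) = 0 → aeval y (P u) = 0 →
      x ^ k = y ^ k → x = y)
    {a : ℚ_[ℓ]} (ha : aeval a (P u) = 0) :
    FullLie ℓ ρ (J) := by
  have hcont : Continuous ρ := h.cont
  have hbad : S_BADIRR := Pool.Agent.R932.OP.badirr Pool.Agent.Y614.ZD.t
  obtain ⟨σ, hσ⟩ := Pool.Agent.W401.Frob.exists_frob v
  have hchar : (ρ (s σ⁻¹)).charpoly = (P v).map (algebraMap ℚ ℚ_[ℓ]) := h.frob v hv hvℓ σ hσ
  have hstr : StronglyIrreducible ℓ ρ := by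
    refine hbad ℓ n Γ ρ hcont (s σ⁻¹) (by rw [hchar]; exact hirr) ?_
    rw [hchar]
    exact pow_closure hQ.sep.ne_zero hQ.pow
  obtain ⟨τ, hτ⟩ := Pool.Agent.W401.Frob.exists_frob u
  have hchar' : (ρ (s τ⁻¹)).charpoly = (P u).map (algebraMap ℚ ℚ_[ℓ]) := h.frob u hu huℓ τ hτ
  refine full_even h hv hvℓ hQ hn hstr (sc_of_root ρ hstr (s τ⁻¹) ?_ ?_ a ?_)
  · rw [hchar']
    exact hsep.map
  · rw [hchar']
    exact pow_closure hsep.ne_zero hpow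
  · rw [hchar', IsRoot.def, eval_map_algebraMap]
    exact ha

/-- **Odd rank.** -/
theorem full_odd_expl (h : RepO s J S P ρ) (hs : Continuous s)
    {v : HeightOneSpectrum (𝓞 K)} (hv : v ∉ S)
    (hvℓ : (ℓ : 𝓞 K) ∉ v.asIdeal) {b : ℕ} {Q : ℚ[X]} (hPv : P v = (X - 1) * Q) (hQ : IsHom Q b)
    (hodd : Odd n) (hirr : Irreducible (Q.map (algebraMap ℚ ℚ_[ℓ])))
    {u : HeightOneSpectrum (𝓞 K)} {R : ℚ[X]} (hu : u ∉ S) (huℓ : (ℓ : 𝓞 K) ∉ u.asIdeal)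
    (hPu : P u = (X - 1) * R) (hR : ∀ (k : ℕ) (x : QB), 0 < k → aeval x R = 0 → x ^ k ≠ 1)
    (hsq : ¬ IsSquare ((Q.eval 1 * Q.eval (-1) * (R.eval 1 * R.eval (-1)) : ℚ) : ℚ_[ℓ])) :
    FullLie ℓ ρ (J) := by
  have hOrth := h.orthogonal hs
  obtain ⟨hgv, -⟩ := goodPlace h hv hvℓ hPv hQ
  obtain ⟨ψ⟩ := nonempty_LC
  have hR0 : R ≠ 0 := by
    rintro rfl
    have h1 := (monic_place h hu huℓ).ne_zero
    rw [hPu, mul_zero] at h1
    exact h1 rfl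
  have hgu : GoodPlace S P u R := ⟨hu, hPu, fun k hk => coprime_of_roots (fun k hk x hx h1 => by
    obtain ⟨r, hr, rfl⟩ := lift_c ψ hR0 hx
    rw [← map_pow, ← map_one ψ] at h1
    exact hR k r hk hr (ψ.injective h1)) k hk⟩
  have htate : ¬ TateSubquotient ℓ (ρ.comp s) := fun ht => hsq
    (tate_square (Pool.Agent.Y458.ZO.bad Pool.Agent.Y337.ZO.iso_t Pool.Agent.Y337.ZO.line_t) hodd
      hgv hgu ℓ hvℓ huℓ _ _ hOrth ht)
  have hcard : Nat.card (Pool.Agent.V7H82.PR.Rt Q) = 2 * b := (card_rt hQ.sep).trans hQ.deg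
  have hself := self_one hQ.hom hcard
  have hmon : Q.Monic := by
    have h1 := monic_place h hv hvℓ
    rw [hPv] at h1
    have h2 : (X - 1 : ℚ[X]).Monic := by
      have h3 := monic_X_sub_C (1 : ℚ)
      rwa [map_one] at h3
    exact h2.of_mul_monic_left h1
  have hinv : ∀ x : QB, aeval x Q = 0 → x ≠ 0 ∧ aeval x⁻¹ Q = 0 := fun x hx =>
    root_inv_odd h hv hvℓ hPv hQ hx
  have hone : ∀ (k : ℕ) (x : QB), 0 < k → aeval x Q = 0 → x ^ k ≠ 1 := by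
    intro k x hk hx h1
    obtain ⟨h3, h4⟩ := hinv x hx
    have h5 := hQ.pow k x x⁻¹ hk hx h4 (by rw [inv_pow, h1, inv_one])
    apply hself x hx
    rw [Rat.cast_one]
    conv_lhs => rw [h5]
    nth_rewrite 1 [← h5]
    exact mul_inv_cancel₀ h3
  have hnice : NicePlace S P v Q := by
    refine ⟨hv, hPv, hmon, hQ.sep, fun h0 => ?_, ?_⟩
    · refine hone 1 1 one_pos ?_ (one_pow 1)
      have h1 : aeval (algebraMap ℚ QB 1) Q = 0 := by
        rw [aeval_algebraMap_apply, coe_aeval_eq_eval, h0, map_zero]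
      rwa [map_one] at h1
    · intro j x y hj hx hy hxy
      rw [map_mul, map_sub, aeval_X, map_one] at hx hy
      rcases mul_eq_zero.1 hx with hx | hx
      · rcases mul_eq_zero.1 hy with hy | hy
        · rw [sub_eq_zero.1 hx, sub_eq_zero.1 hy]
        · rw [sub_eq_zero.1 hx, one_pow] at hxy
          exact absurd hxy.symm (hone j y hj hy)
      · rcases mul_eq_zero.1 hy with hy | hy
        · rw [sub_eq_zero.1 hy, one_pow] at hxy
          exact absurd hxy (hone j x hj hx)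
        · exact hQ.pow j x y hj hx hy hxy
  have hstr : StronglyIrreducible ℓ (ρ.comp s) := Pool.Agent.Y142.ZI.strong_of_irr
    Pool.Agent.Y379.ZI.t hnice ℓ hvℓ _ _ hOrth hirr htate
  refine full_odd h hv hvℓ hPv hQ fun U W hU hW => ?_
  exact hstr (U.comap s) W (hU.preimage hs) fun σ hσ w hw => hW (s σ) hσ w hw

end

end Pool.Agent.V7H82.OD
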